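import Pool.Agent.H11.EL.Targets

/-!
# MP_0b603e_al: module NF (normal form of a product of values)
-/

set_option autoImplicit false

namespace Pool.Agent.H35.EL

open Pool.Agent.H11.EL

open scoped commutatorElement

private theorem nf_lift_one (r : ℕ) (w : FreeGroup (Fin r)) (G : Type) [Group G] :
    FreeGroup.lift (fun _ : Fin r => (1 : G)) w = 1 := by
  have h : FreeGroup.lift (fun _ : Fin r => (1 : G)) = 1 := by
    ext i
    simp
  rw [h, MonoidHom.one_apply]

private theorem nf_list (r : ℕ) (w : FreeGroup (Fin r)) (G : Type) [Group G] : ∀ (m : ℕ)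
    (l : List G), l.length ≤ m →
    (∀ x ∈ l, x ∈ Set.range (fun f : Fin r → G => FreeGroup.lift f w) ∨
      x⁻¹ ∈ Set.range (fun f : Fin r → G => FreeGroup.lift f w)) → ∃ f f' : Fin m → Fin r → G,
    l.prod = (List.ofFn fun i => FreeGroup.lift (f i) w * (FreeGroup.lift (f' i) w)⁻¹).prod := by
  intro m
  induction m with
  | zero =>
    intro l hl _
    have h0 : l = [] := List.length_eq_zero_iff.1 (by omega)
    refine ⟨fun _ _ => 1, fun _ _ => 1, ?_⟩
    subst h0
    simp
  | succ m ih =>
    intro l hl hx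
    cases l with
    | nil =>
      refine ⟨fun _ _ => 1, fun _ _ => 1, ?_⟩
      symm
      rw [List.prod_nil]
      apply List.prod_eq_one
      intro y hy
      rw [List.mem_ofFn] at hy
      obtain ⟨i, hi⟩ := hy
      rw [← hi]
      exact mul_inv_cancel _
    | cons x l =>
      have hl' : l.length ≤ m := by
        rw [List.length_cons] at hl
        omega
      obtain ⟨f, f', h⟩ := ih l hl' fun y hy => hx y (List.mem_cons_of_mem x hy)
      rcases hx x List.mem_cons_self with ⟨f0, hf0⟩ | ⟨f0, hf0⟩
      · refine ⟨Fin.cons f0 f, Fin.cons (fun _ => 1) f', ?_⟩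
        rw [List.prod_cons, List.ofFn_succ, List.prod_cons, h]
        simp only [Fin.cons_zero, Fin.cons_succ]
        rw [nf_lift_one, inv_one, mul_one]
        congr 1
        exact hf0.symm
      · refine ⟨Fin.cons (fun _ => 1) f, Fin.cons f0 f', ?_⟩
        rw [List.prod_cons, List.ofFn_succ, List.prod_cons, h]
        simp only [Fin.cons_zero, Fin.cons_succ]
        rw [nf_lift_one, one_mul]
        congr 1
        rw [eq_comm, inv_eq_iff_eq_inv]
        exact hf0

theorem pf_nf : T_NF := by
  intro r w m G _ g hg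
  obtain ⟨l, h1, h2, h3⟩ := hg
  obtain ⟨f, f', h⟩ := nf_list r w G m l h1 h2
  exact ⟨f, f', h3 ▸ h⟩

end Pool.Agent.H35.EL
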